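import Pool.Agent.H873JM.Final
import Pool.Agent.H873JM.SymFun

/-!
# Symmetric functions in the odd Jucys-Murphy elements give the whole Hecke algebra of `(S_{2n}, H_n)`

`{F(J_1, J_3, …, J_{2n-1}) · P_n : F ∈ 𝕊}` is the Hecke algebra `𝓗_n` of the Gelfand pair
`(S_{2n}, H_n)`, for every `n`.

Points are numbered `0, …, 2 n - 1` (one less than in the usual notation). The definitions are in
`Pool.Agent.H873JM.Defs` (`Sym2`, `tau`, `Hyp`, `JM`, `Jodd`, `PP`, `Hecke`) and
`Pool.Agent.H873JM.SymFun` (`IsSymFun`):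
* `Sym2 n` is the symmetric group of `2 n` points, `tau n` the involution `2 i ↔ 2 i + 1`, and
  `Hyp n` (the hyperoctahedral group `H_n`) its centraliser;
* `JM k = ∑_{j < k} (j k)`, and `Jodd i = JM (2 i)`, `i = 0, …, n - 1`, are the odd Jucys-Murphy
  elements (`J_{2 i + 1}` in the usual numbering);
* `PP n = ∑_{ζ ∈ H_n} ζ`;
* `Hecke n` is the space of the elements of `ℂ[S_{2n}]` whose coefficients are constant on the double
  cosets of `H_n`;
* `IsSymFun F`: `F` is a formal power series in `x_0, x_1, …` of bounded degree which is invariant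
  under all permutations of the variables, i.e. a symmetric function.
-/

namespace Pool.Agent.Results.MP_fb7f9c_al.OddJucysMurphy

open Pool.Agent.H873JM MonoidAlgebra

/-- `F(J_1, J_3, …, J_{2n-1})`: the first `n` variables of `F` are replaced by the odd Jucys-Murphy
elements and all other variables by `0`. The exponent vectors `d : Fin n →₀ ℕ` are those of the
monomials in the first `n` variables; for `F` of bounded degree the sum is finite. -/
noncomputable def evalOdd (n : ℕ) (F : MvPowerSeries ℕ ℂ) : MonoidAlgebra ℂ (Sym2 n) :=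
  ∑ᶠ d : Fin n →₀ ℕ,
    MvPowerSeries.coeff (d.mapDomain Fin.val) F • (List.ofFn fun i => Jodd i ^ d i).prod

theorem evalOdd_eq {n : ℕ} (F : MvPowerSeries ℕ ℂ) (f : MvPolynomial (Fin n) ℂ)
    (h : ∀ d : Fin n →₀ ℕ, f.coeff d = MvPowerSeries.coeff (d.mapDomain Fin.val) F) :
    evalOdd n F = evJ f := by
  unfold evalOdd evJ
  rw [finsum_eq_sum_of_support_subset (s := f.support)]
  · exact Finset.sum_congr rfl fun d _ => by rw [h]
  · intro d hd
    rw [Function.mem_support] at hd
    rw [Finset.mem_coe, MvPolynomial.mem_support_iff, h]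
    intro h0
    exact hd (by rw [h0, zero_smul])

/-- The elements `F(J_1, J_3, …, J_{2n-1}) · P_n`, `F` a symmetric function, are exactly the elements
of the Hecke algebra of the Gelfand pair `(S_{2n}, H_n)`. -/
theorem result (n : ℕ) :
    {a : MonoidAlgebra ℂ (Sym2 n) | ∃ F : MvPowerSeries ℕ ℂ, IsSymFun F ∧ a = evalOdd n F * PP n} =
      (Hecke n : Set (MonoidAlgebra ℂ (Sym2 n))) := by
  ext a
  rw [Set.mem_setOf_eq, SetLike.mem_coe]
  constructor
  · rintro ⟨F, hF, rfl⟩
    obtain ⟨f, hf, h⟩ := t_restrict (n := n) F hF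
    rw [evalOdd_eq F f h]
    exact t_incl f hf
  · intro ha
    obtain ⟨f, hf, rfl⟩ := t_final' a ha
    obtain ⟨F, hF, h⟩ := t_lift f hf
    exact ⟨F, hF, by rw [evalOdd_eq F f h]⟩

end Pool.Agent.Results.MP_fb7f9c_al.OddJucysMurphy
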